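import Mathlib

namespace Pool.Agent.Results.MP_b6277e_co.Super

open Polynomial Filter Topology

/-- The sign pattern `T₂ ⊕ T₂`. -/
def TT : Matrix (Fin 4) (Fin 4) SignType :=
  !![1, 1, 0, 0; -1, -1, 0, 0; 0, 0, 1, 1; 0, 0, -1, -1]

/-- `S` agrees with `T` at every nonzero entry of `T`. -/
def IsSuperpattern (S T : Matrix (Fin 4) (Fin 4) SignType) : Prop :=
  ∀ i j, T i j ≠ 0 → S i j = T i j

/-- Every monic real quartic is the characteristic polynomial of a realization of `S`. -/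
def SpectrallyArbitrary (S : Matrix (Fin 4) (Fin 4) SignType) : Prop :=
  ∀ p : ℝ[X], p.Monic → p.natDegree = 4 →
    ∃ A : Matrix (Fin 4) (Fin 4) ℝ, (∀ i j, SignType.sign (A i j) = S i j) ∧ A.charpoly = p

lemma ivt (g k U : ℝ) (hg : 0 < g) (hk : k < U) (m H f f1 : ℝ → ℝ) (hm : Continuous m)
    (hH : Continuous H) (hf : Continuous f) (hf1 : Continuous f1)
    (hff : ∀ u, f u = f k + (u - k) * f1 u)
    (hU : 0 < H U * (U - k) ^ 2 - g * f U ^ 2 - m U * f U * (U - k)) :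
    ∃ u ∈ Set.Icc k U, ∃ y, (u - k) * y = f u ∧ g * y ^ 2 + m u * y = H u := by
  by_cases h0 : f k = 0
  · have hU1 : 0 < H U - g * f1 U ^ 2 - m U * f1 U := by
      have e : H U * (U - k) ^ 2 - g * f U ^ 2 - m U * f U * (U - k) =
          (U - k) ^ 2 * (H U - g * f1 U ^ 2 - m U * f1 U) := by
        rw [hff U, h0]; ring
      rw [e] at hU
      exact (pos_iff_pos_of_mul_pos hU).1 (by have : 0 < U - k := by linarith
                                              positivity)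
    by_cases h1 : H k - g * f1 k ^ 2 - m k * f1 k ≤ 0
    · have hc : ContinuousOn (fun u => H u - g * f1 u ^ 2 - m u * f1 u) (Set.Icc k U) := by
        fun_prop
      obtain ⟨u, hu, e⟩ := intermediate_value_Icc hk.le hc ⟨h1, hU1.le⟩
      refine ⟨u, hu, f1 u, by rw [hff u, h0]; ring, ?_⟩
      simp only at e
      linarith
    · push Not at h1
      have hd : 0 ≤ m k ^ 2 + 4 * g * H k := by
        nlinarith [sq_nonneg (2 * g * f1 k + m k)]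
      refine ⟨k, ⟨le_refl _, hk.le⟩, (-m k + √(m k ^ 2 + 4 * g * H k)) / (2 * g), by simp [h0], ?_⟩
      have := Real.sq_sqrt hd
      generalize √(m k ^ 2 + 4 * g * H k) = R at this
      field_simp
      linear_combination this
  · have hc : ContinuousOn (fun u => H u * (u - k) ^ 2 - g * f u ^ 2 - m u * f u * (u - k))
        (Set.Icc k U) := by fun_prop
    have hneg : H k * (k - k) ^ 2 - g * f k ^ 2 - m k * f k * (k - k) < 0 := by
      have : 0 < g * f k ^ 2 := by positivity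
      simpa using this
    obtain ⟨u, hu, e⟩ := intermediate_value_Icc hk.le hc ⟨hneg.le, hU.le⟩
    simp only at e
    have hne : u - k ≠ 0 := by
      intro h
      have : u = k := by linarith
      rw [this] at e
      linarith
    refine ⟨u, hu, f u / (u - k), by field_simp, ?_⟩
    field_simp
    linarith

lemma cl (F : ℝ → ℝ → ℝ) (h : Continuous fun z : ℝ × ℝ => F z.1 z.2) (U : ℝ) :
    Continuous fun e => F e U := h.comp (Continuous.prodMk_left U)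

lemma cr (F : ℝ → ℝ → ℝ) (h : Continuous fun z : ℝ × ℝ => F z.1 z.2) (e : ℝ) :
    Continuous (F e) := h.comp (Continuous.prodMk_right e)

lemma ev3 (H f m : ℝ → ℝ → ℝ) (g κ : ℝ → ℝ) (U : ℝ)
    (cH : Continuous fun z : ℝ × ℝ => H z.1 z.2) (cf : Continuous fun z : ℝ × ℝ => f z.1 z.2)
    (cm : Continuous fun z : ℝ × ℝ => m z.1 z.2) (cg : Continuous g) (cκ : Continuous κ)
    (h : 0 < H 0 U * (U - κ 0) ^ 2 - g 0 * f 0 U ^ 2 - m 0 U * f 0 U * (U - κ 0)) :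
    ∀ᶠ ε in 𝓝 (0 : ℝ),
      0 < H ε U * (U - κ ε) ^ 2 - g ε * f ε U ^ 2 - m ε U * f ε U * (U - κ ε) := by
  have c1 := cl H cH U
  have c2 := cl f cf U
  have c3 := cl m cm U
  exact continuousAt_const.eventually_lt (Continuous.continuousAt (by fun_prop)) h

lemma ev5 (H m : ℝ → ℝ → ℝ) (U K : ℝ)
    (cH : Continuous fun z : ℝ × ℝ => H z.1 z.2) (cm : Continuous fun z : ℝ × ℝ => m z.1 z.2)
    (h : ∀ u ∈ Set.Icc (-U) U, |m 0 u| < 1 ∧ H 0 u < K + 1) :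
    ∀ᶠ ε in 𝓝 (0 : ℝ), ∀ u ∈ Set.Icc (-U) U, |m ε u| < 1 ∧ H ε u < K + 1 := by
  apply isCompact_Icc.eventually_forall_of_forall_eventually
    (P := fun ε u => |m ε u| < 1 ∧ H ε u < K + 1)
  intro u hu
  exact (cm.abs.continuousAt.eventually_lt continuousAt_const (h u hu).1).and
    (cH.continuousAt.eventually_lt continuousAt_const (h u hu).2)

lemma ybound (g m y H K : ℝ) (hK : 0 ≤ K) (g1 : 1 / 2 < g) (g6 : |m| < 1) (g7 : H < K + 1)
    (q : g * y ^ 2 + m * y = H) : |y| ≤ K + 4 := by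
  by_contra hc
  push Not at hc
  have e1 : |m * y| ≤ |y| := by
    rw [abs_mul]; exact mul_le_of_le_one_left (abs_nonneg _) g6.le
  have e2 := neg_abs_le (m * y)
  have e3 : y ^ 2 = |y| ^ 2 := (sq_abs y).symm
  have e4 : y ^ 2 / 2 ≤ g * y ^ 2 := by nlinarith [sq_nonneg y]
  nlinarith

lemma gpos (T P p0 p1 U : ℝ) (hU : U = T ^ 2 + |P| + 4 * |p0| + 2 * p1 ^ 2 + 2) :
    0 < (((P + U ^ 2) / 2) ^ 2 - p0) * U ^ 2 - ((p1 + T * ((P + U ^ 2) / 2)) / 2) ^ 2 := by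
  have hP0 := abs_nonneg P
  have hp0 := abs_nonneg p0
  have hU2 : 2 ≤ U := by nlinarith [sq_nonneg T, sq_nonneg p1]
  obtain ⟨s, hs⟩ : ∃ s, s = (P + U ^ 2) / 2 := ⟨_, rfl⟩
  rw [← hs]
  have hUU : U ≤ U ^ 2 := by nlinarith
  have hs1 : 2 * |p0| + p1 ^ 2 + 1 ≤ s := by
    have := neg_abs_le P
    nlinarith [sq_nonneg T]
  have hs2 : s ≤ s ^ 2 := by nlinarith [sq_nonneg p1]
  have hT : T ^ 2 + 1 ≤ U ^ 2 := by nlinarith [sq_nonneg p1]
  have hp := le_abs_self p0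
  have h5 : (p1 + T * s) ^ 2 ≤ 2 * p1 ^ 2 + 2 * (T * s) ^ 2 := by
    nlinarith [sq_nonneg (p1 - T * s)]
  have h6 : (T * s) ^ 2 ≤ U ^ 2 * s ^ 2 := by
    rw [mul_pow]; exact mul_le_mul_of_nonneg_right (by linarith) (sq_nonneg _)
  have h7 : p1 ^ 2 ≤ U ^ 2 * p1 ^ 2 := by nlinarith [sq_nonneg p1, sq_nonneg T]
  have h8 : 0 < U ^ 2 * (s ^ 2 / 2 - p0 - p1 ^ 2 / 2) := by
    apply mul_pos (by positivity)
    linarith
  linarith

lemma kbound (P p0 U u : ℝ) (hu : u ∈ Set.Icc (-U) U) :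
    ((P + u ^ 2) / 2) ^ 2 - p0 < ((|P| + U ^ 2) / 2) ^ 2 + |p0| + 1 := by
  have hu2 : u ^ 2 ≤ U ^ 2 := sq_le_sq' hu.1 hu.2
  have : ((P + u ^ 2) / 2) ^ 2 ≤ ((|P| + U ^ 2) / 2) ^ 2 := by
    apply sq_le_sq'
    · have := neg_abs_le P
      nlinarith [sq_nonneg u, sq_nonneg U]
    · have := le_abs_self P
      linarith
  have := neg_abs_le p0
  linarith

lemma core (b1 b2 b3 b4 e1 e2 e3 e4 T p2 p1 p0 : ℝ) :
    ∃ a c1 d1 c2 d2 ε : ℝ, 0 < a ∧ 0 < c1 ∧ 0 < d1 ∧ 0 < c2 ∧ 0 < d2 ∧ 0 < ε ∧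
      (a - d1) + (a - d2) = T ∧
      (c1 - a * d1) + (c2 - a * d2) + (a - d1) * (a - d2)
        - ε * (b1 * e1 + b2 * e3 + b3 * e2 + b4 * e4) = p2 ∧
      -((a - d1) * (c2 - a * d2) + (a - d2) * (c1 - a * d1))
        - ε * (d1 * (b1 * e1 + b2 * e3) + (b3 * e1 + b4 * e3) - c1 * (b1 * e2 + b2 * e4)
          - a * (b3 * e2 + b4 * e4) + d2 * (e1 * b1 + e2 * b3) + (e3 * b1 + e4 * b3)
          - c2 * (e1 * b2 + e2 * b4) - a * (e3 * b2 + e4 * b4)) = p1 ∧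
      (c1 - a * d1) * (c2 - a * d2)
        - ε * ((d1 * b1 + b3) * (d2 * e1 + e3) + (d1 * b2 + b4) * (-c2 * e1 - a * e3)
          + (-c1 * b1 - a * b3) * (d2 * e2 + e4) + (c1 * b2 + a * b4) * (c2 * e2 + a * e4))
        + ε ^ 2 * ((b1 * b4 - b2 * b3) * (e1 * e4 - e2 * e3)) = p0 := by
  obtain ⟨P, hP⟩ : ∃ P, P = p2 - T ^ 2 / 4 := ⟨_, rfl⟩
  obtain ⟨U, hU⟩ : ∃ U, U = T ^ 2 + |P| + 4 * |p0| + 2 * p1 ^ 2 + 2 := ⟨_, rfl⟩
  obtain ⟨K, hK⟩ : ∃ K, K = ((|P| + U ^ 2) / 2) ^ 2 + |p0| := ⟨_, rfl⟩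
  obtain ⟨a, ha⟩ : ∃ a, a = |T| + U + |P| + K + 8 := ⟨_, rfl⟩
  have hP0 := abs_nonneg P
  have hp0 := abs_nonneg p0
  have hT0 := abs_nonneg T
  have hU2 : 2 ≤ U := by nlinarith [sq_nonneg T, sq_nonneg p1]
  have hK0 : 0 ≤ K := by rw [hK]; positivity
  let τ := b1 * e1 + b2 * e3 + b3 * e2 + b4 * e4
  let M2 := b1 * e2 + b2 * e4
  let N2 := e1 * b2 + e2 * b4
  let σ : ℝ → ℝ → ℝ := fun ε u => (P + u ^ 2 + ε * τ) / 2
  let d1 : ℝ → ℝ := fun u => a - T / 2 - u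
  let d2 : ℝ → ℝ := fun u => a - T / 2 + u
  let k1 : ℝ → ℝ → ℝ := fun ε u => σ ε u + a * d1 u
  let k2 : ℝ → ℝ → ℝ := fun ε u => σ ε u + a * d2 u
  let f : ℝ → ℝ → ℝ := fun ε u => (p1 + T * σ ε u + ε * (d1 u * (b1 * e1 + b2 * e3)
    + (b3 * e1 + b4 * e3) - k1 ε u * M2 - a * (b3 * e2 + b4 * e4) + d2 u * (e1 * b1 + e2 * b3)
    + (e3 * b1 + e4 * b3) - k2 ε u * N2 - a * (e3 * b2 + e4 * b4))) / 2
  let κ : ℝ → ℝ := fun ε => -(ε * (M2 - N2)) / 2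
  let g : ℝ → ℝ := fun ε => 1 - ε * (b2 * e2)
  let m : ℝ → ℝ → ℝ := fun ε u => ε * ((d1 u * b2 + b4) * e1 - b1 * (d2 u * e2 + e4)
    + b2 * (k2 ε u * e2 + a * e4) - e2 * (k1 ε u * b2 + a * b4))
  let H : ℝ → ℝ → ℝ := fun ε u => σ ε u ^ 2 - ε * ((d1 u * b1 + b3) * (d2 u * e1 + e3)
    + (d1 u * b2 + b4) * (-k2 ε u * e1 - a * e3) + (-k1 ε u * b1 - a * b3) * (d2 u * e2 + e4)
    + (k1 ε u * b2 + a * b4) * (k2 ε u * e2 + a * e4))
    + ε ^ 2 * ((b1 * b4 - b2 * b3) * (e1 * e4 - e2 * e3)) - p0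
  have cf : Continuous (fun z : ℝ × ℝ => f z.1 z.2) := by
    simp only [f, k1, k2, σ, d1, d2]; fun_prop
  have cm : Continuous (fun z : ℝ × ℝ => m z.1 z.2) := by
    simp only [m, k1, k2, σ, d1, d2]; fun_prop
  have cH : Continuous (fun z : ℝ × ℝ => H z.1 z.2) := by
    simp only [H, k1, k2, σ, d1, d2]; fun_prop
  have cκ : Continuous κ := by simp only [κ]; fun_prop
  have cg : Continuous g := by simp only [g]; fun_prop
  have h1 : ∀ᶠ ε in 𝓝 (0 : ℝ), 1 / 2 < g ε :=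
    continuousAt_const.eventually_lt cg.continuousAt (by simp [g]; norm_num)
  have h2 : ∀ᶠ ε in 𝓝 (0 : ℝ), |κ ε| < 1 :=
    cκ.abs.continuousAt.eventually_lt continuousAt_const (by simp [κ])
  have h4 : ∀ᶠ ε in 𝓝 (0 : ℝ), |ε * τ| < 1 :=
    (by fun_prop : Continuous fun ε : ℝ => |ε * τ|).continuousAt.eventually_lt
      continuousAt_const (by simp)
  have h3 : ∀ᶠ ε in 𝓝 (0 : ℝ),
      0 < H ε U * (U - κ ε) ^ 2 - g ε * f ε U ^ 2 - m ε U * f ε U * (U - κ ε) := by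
    apply ev3 H f m g κ U cH cf cm cg cκ
    have e : H 0 U * (U - κ 0) ^ 2 - g 0 * f 0 U ^ 2 - m 0 U * f 0 U * (U - κ 0) =
        (((P + U ^ 2) / 2) ^ 2 - p0) * U ^ 2 - ((p1 + T * ((P + U ^ 2) / 2)) / 2) ^ 2 := by
      simp only [H, f, m, g, κ, σ]; ring
    rw [e]
    exact gpos T P p0 p1 U hU
  have h5 : ∀ᶠ ε in 𝓝 (0 : ℝ), ∀ u ∈ Set.Icc (-U) U, |m ε u| < 1 ∧ H ε u < K + 1 := by
    apply ev5 H m U K cH cm
    intro u hu
    refine ⟨by simp [m], ?_⟩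
    have e : H 0 u = ((P + u ^ 2) / 2) ^ 2 - p0 := by simp only [H, σ]; ring
    rw [e, hK]
    exact kbound P p0 U u hu
  obtain ⟨ε, ⟨⟨⟨⟨g1, g2⟩, g3⟩, g4⟩, g5⟩, hε⟩ :=
    ((((((h1.and h2).and h3).and h4).and h5).filter_mono
      (nhdsWithin_le_nhds (s := Set.Ioi 0))).and self_mem_nhdsWithin).exists
  have hε : 0 < ε := hε
  have g2' := abs_lt.1 g2
  obtain ⟨u, hu, y, q1, q2⟩ := ivt (g ε) (κ ε) U (by linarith) (by linarith) (m ε) (H ε) (f ε)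
    (fun u => (T / 2 - ε * (M2 + N2) / 2) / 2 * (u + κ ε) +
      ε * ((e1 * b1 + e2 * b3) - (b1 * e1 + b2 * e3) + a * M2 - a * N2) / 2)
    (cr m cm ε) (cr H cH ε) (cr f cf ε) (by fun_prop)
    (by intro u; simp only [f, k1, k2, σ, d1, d2]; ring) g3
  obtain ⟨g6, g7⟩ := g5 u ⟨by linarith [hu.1], hu.2⟩
  have hy : |y| ≤ K + 4 := ybound _ _ _ _ _ hK0 g1 g6 g7 q2
  have hy' := abs_le.1 hy
  have hT1 := le_abs_self T
  have hd1 : 1 ≤ d1 u := by simp only [d1]; linarith [hu.2]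
  have hd2 : 1 ≤ d2 u := by simp only [d2]; linarith [hu.1]
  have ha0 : 0 < a := by linarith
  have hσ : -|P| - 1 ≤ σ ε u := by
    simp only [σ]
    have := neg_abs_le P
    have := abs_lt.1 g4
    linarith [sq_nonneg u]
  have ha1 : a ≤ a * d1 u := le_mul_of_one_le_right ha0.le hd1
  have ha2 : a ≤ a * d2 u := le_mul_of_one_le_right ha0.le hd2
  refine ⟨a, k1 ε u + y, d1 u, k2 ε u - y, d2 u, ε, ha0, by simp only [k1]; linarith, by linarith,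
    by simp only [k2]; linarith, by linarith, hε, ?_, ?_, ?_, ?_⟩
  · simp only [d1, d2]; ring
  · simp only [k1, k2, σ, d1, d2, τ]; rw [hP]; ring
  · simp only [f, κ, k1, k2, M2, N2, d1, d2] at q1 ⊢
    linear_combination 2 * q1
  · simp only [g, m, H, k1, k2, d1, d2] at q2 ⊢
    linear_combination -q2

lemma sign_mul_cast (ε : ℝ) (hε : 0 < ε) (s : SignType) : SignType.sign (ε * (s : ℝ)) = s := by
  rw [sign_mul, sign_pos hε, one_mul]
  cases s <;> simp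

lemma sign_cast (s : SignType) : SignType.sign (s : ℝ) = s := by
  cases s <;> simp

theorem result (S : Matrix (Fin 4) (Fin 4) SignType) (hS : IsSuperpattern S TT) :
    SpectrallyArbitrary S := by
  intro p hp hd
  obtain ⟨a, c1, d1, c2, d2, ε, ha, hc1, hd1, hc2, hd2, hε, q3, q2, q1, q0⟩ :=
    core (S 0 2) (S 0 3) (S 1 2) (S 1 3) (S 2 0) (S 2 1) (S 3 0) (S 3 1) (-p.coeff 3)
      (p.coeff 2) (p.coeff 1) (p.coeff 0)
  refine ⟨!![a, 1, ε * (S 0 2 : ℝ), ε * (S 0 3 : ℝ); -c1, -d1, ε * (S 1 2 : ℝ), ε * (S 1 3 : ℝ);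
    (S 2 0 : ℝ), (S 2 1 : ℝ), a, 1; (S 3 0 : ℝ), (S 3 1 : ℝ), -c2, -d2], ?_, ?_⟩
  · have s00 := hS 0 0 (by decide)
    have s01 := hS 0 1 (by decide)
    have s10 := hS 1 0 (by decide)
    have s11 := hS 1 1 (by decide)
    have s22 := hS 2 2 (by decide)
    have s23 := hS 2 3 (by decide)
    have s32 := hS 3 2 (by decide)
    have s33 := hS 3 3 (by decide)
    intro i j
    fin_cases i <;> fin_cases j <;>
      simp [s00, s01, s10, s11, s22, s23, s32, s33, TT, ha, hc1, hd1, hc2, hd2,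
        sign_mul_cast ε hε, sign_cast, hε]
  · apply Polynomial.funext
    intro x
    have hc : p.coeff 4 = 1 := by rw [← hd]; exact hp.coeff_natDegree
    rw [Matrix.eval_charpoly, Polynomial.eval_eq_sum_range, hd]
    simp only [Finset.sum_range_succ, Finset.sum_range_zero, hc]
    simp [Matrix.det_succ_row_zero, Fin.sum_univ_succ, Fin.succAbove, Matrix.scalar_apply,
      Matrix.diagonal_apply]
    linear_combination q0 + x * q1 + x ^ 2 * q2 - x ^ 3 * q3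

end Pool.Agent.Results.MP_b6277e_co.Super
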